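import Pool.Agent.H53.VA.Block

/-!
Artin groups of unions of cycles.
-/

set_option autoImplicit false

namespace Pool.Agent.H53.VA

open Pool.Agent.Helper741 Pool.Agent.TH107 CoxeterSystem Pool.Agent.X201.AT
open Pool.Agent.Y110.FJ

variable {C : ∀ (G : Type) [Group G], Prop}

/-- the Coxeter matrix of the cycle of length `n`: type affine `A_{n-1}` if `3 ≤ n` -/
def cyc (n : ℕ) : CoxeterMatrix (ZMod n) where
  M := fun i j => if i = j then 1 else if i + 1 = j ∨ j + 1 = i then 3 else 2
  isSymm := by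
    ext i j
    show (if j = i then 1 else if j + 1 = i ∨ i + 1 = j then 3 else 2) =
      (if i = j then 1 else if i + 1 = j ∨ j + 1 = i then 3 else 2)
    by_cases h : i = j
    · rw [if_pos h, if_pos h.symm]
    · rw [if_neg h, if_neg (Ne.symm h)]
      by_cases h1 : i + 1 = j ∨ j + 1 = i
      · rw [if_pos h1, if_pos h1.symm]
      · rw [if_neg h1, if_neg fun h2 => h1 h2.symm]
  diagonal := fun i => if_pos rfl
  off_diagonal := fun i j h => by
    show (if i = j then 1 else if i + 1 = j ∨ j + 1 = i then 3 else 2) ≠ 1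
    rw [if_neg h]
    split_ifs <;> norm_num

theorem cyc_apply (n : ℕ) (i j : ZMod n) :
    cyc n i j = if i = j then 1 else if i + 1 = j ∨ j + 1 = i then 3 else 2 := rfl

theorem zp_eq {K : Type} (π : Equiv.Perm K) (x : K) (k l : ℤ) :
    (π ^ k) x = (π ^ l) x ↔ ((k : ℤ) : ZMod (MulAction.period π x)) = l := by
  rw [ZMod.intCast_eq_intCast_iff_dvd_sub]
  have h1 := MulAction.zpow_smul_eq_iff_period_dvd (j := l - k) (g := π) (a := x)
  rw [← h1]
  constructor
  · intro h
    show (π ^ (l - k)) x = x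
    have h2 : l - k = -k + l := by ring
    rw [h2, zpow_add, Equiv.Perm.mul_apply, ← h, ← Equiv.Perm.mul_apply, ← zpow_add,
      neg_add_cancel, zpow_zero, Equiv.Perm.one_apply]
  · intro h
    have h' : (π ^ (l - k)) x = x := h
    have h2 : l = k + (l - k) := by ring
    rw [h2, zpow_add, Equiv.Perm.mul_apply, h']

theorem c_perm (hC : ClosedE C) (hcyc : ∀ n : ℕ, 3 ≤ n → C (Artin (cyc n))) :
    ∀ (n : ℕ) (K : Type) [Finite K] (N : CoxeterMatrix K) (π : Equiv.Perm K), Nat.card K = n →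
      (∀ i, π i ≠ i) → (∀ i, π (π i) ≠ i) →
      (∀ i j, N i j = 1 ∧ i = j ∨ N i j = 3 ∧ i ≠ j ∧ (π i = j ∨ π j = i) ∨
        N i j = 2 ∧ i ≠ j ∧ ¬ (π i = j ∨ π j = i)) → C (Artin N) := by
  intro n
  induction n using Nat.strong_induction_on with
  | _ n ih =>
    intro K _ N π hn h1 h2 hN
    rcases isEmpty_or_nonempty K with hK | ⟨⟨x⟩⟩
    · exact c_empty hC N
    let X : Set K := {y | ∃ k : ℤ, (π ^ k) x = y}
    have hX1 : ∀ y, π y ∈ X ↔ y ∈ X := by
      intro y
      constructor
      · rintro ⟨k, hk⟩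
        refine ⟨-1 + k, ?_⟩
        rw [zpow_add, Equiv.Perm.mul_apply, hk, zpow_neg_one]
        exact π.symm_apply_apply y
      · rintro ⟨k, hk⟩
        refine ⟨1 + k, ?_⟩
        rw [zpow_add, Equiv.Perm.mul_apply, hk, zpow_one]
    have hx : x ∈ X := ⟨0, by simp⟩
    refine c_block N X hC (fun i hi j hj => ?_) ?_ ?_
    · rcases hN i j with ⟨-, h3⟩ | ⟨-, -, h3 | h3⟩ | ⟨h3, -, -⟩
      · exact absurd (h3 ▸ hi) hj
      · exact absurd (h3 ▸ (hX1 i).2 hi) hj
      · exact absurd ((hX1 j).1 (h3.symm ▸ hi)) hj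
      · exact h3
    · -- the cycle
      let m := MulAction.period π x
      have hm0 : m ≠ 0 := (MulAction.period_pos_of_orderOf_pos (isOfFinOrder_iff_pow_eq_one.2
        ⟨orderOf π, orderOf_pos π, pow_orderOf_eq_one π⟩).orderOf_pos x).ne'
      have hm1 : m ≠ 1 := by
        intro h
        have h3 := MulAction.pow_period_smul π x
        rw [show MulAction.period π x = 1 from h, pow_one] at h3
        exact h1 x h3
      have hm2 : m ≠ 2 := by
        intro h
        have h3 := MulAction.pow_period_smul π x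
        rw [show MulAction.period π x = 2 from h, pow_two] at h3
        exact h2 x h3
      have hm : 3 ≤ m := by omega
      let k : X → ℤ := fun y => y.2.choose
      have hk : ∀ y : X, (π ^ k y) x = y := fun y => y.2.choose_spec
      have heq : ∀ y z : X, ((k y : ℤ) : ZMod m) = k z ↔ y = z := by
        intro y z
        rw [← zp_eq π x, hk, hk]
        exact Subtype.ext_iff.symm
      have hsucc : ∀ y z : X, ((k y : ℤ) : ZMod m) + 1 = k z ↔ π y = z := by
        intro y z
        have h3 : ((k y : ℤ) : ZMod m) + 1 = ((1 + k y : ℤ) : ZMod m) := by push_cast; ring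
        rw [h3, ← zp_eq π x, zpow_add, Equiv.Perm.mul_apply, hk, hk, zpow_one]
      have : Finite X := inferInstance
      refine c_sub hC (cyc m) _ (fun y => ((k y : ℤ) : ZMod m)) (fun y z hyz => (heq y z).1 hyz) ?_
        (hcyc m hm)
      intro y z
      show cyc m _ _ = N y z
      rw [cyc_apply]
      rcases hN y z with ⟨h3, h4⟩ | ⟨h3, h4, h5⟩ | ⟨h3, h4, h5⟩
      · rw [if_pos ((heq y z).2 (Subtype.ext h4)), h3]
      · rw [if_neg fun h6 => h4 (congrArg Subtype.val ((heq y z).1 h6)), if_pos, h3]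
        exact h5.imp (hsucc y z).2 (hsucc z y).2
      · rw [if_neg fun h6 => h4 (congrArg Subtype.val ((heq y z).1 h6)), if_neg, h3]
        exact fun h6 => h5 (h6.imp (hsucc y z).1 (hsucc z y).1)
    · have hc : Nat.card (Xᶜ : Set K) < n := by
        have h3 := Set.ncard_add_ncard_compl X
        rw [hn] at h3
        have h4 : Nat.card (Xᶜ : Set K) = Xᶜ.ncard := Nat.card_coe_set_eq _
        have h5 : 0 < X.ncard := (Set.ncard_pos).2 ⟨x, hx⟩
        omega
      have hX2 : ∀ y, π y ∈ Xᶜ ↔ y ∈ Xᶜ := fun y => not_congr (hX1 y)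
      refine ih _ hc _ _ (π.subtypePerm hX2) rfl (fun i h => h1 i (congrArg Subtype.val h))
        (fun i h => h2 i (congrArg Subtype.val h)) fun i j => ?_
      show N i j = 1 ∧ _ ∨ N i j = 3 ∧ _ ∨ N i j = 2 ∧ _
      rcases hN i j with ⟨h3, h4⟩ | ⟨h3, h4, h5⟩ | ⟨h3, h4, h5⟩
      · exact Or.inl ⟨h3, Subtype.ext h4⟩
      · exact Or.inr (Or.inl ⟨h3, fun h6 => h4 (congrArg Subtype.val h6),
          h5.imp (fun h => Subtype.ext h) fun h => Subtype.ext h⟩)
      · exact Or.inr (Or.inr ⟨h3, fun h6 => h4 (congrArg Subtype.val h6), fun h6 =>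
          h5 (h6.imp (congrArg Subtype.val) (congrArg Subtype.val))⟩)

end Pool.Agent.H53.VA
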