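import Pool.Agent.H53.VA.TypeA

/-!
Virtual Artin groups of spherical and affine type; right-angled virtual Artin groups.
-/

set_option autoImplicit false

namespace Pool.Agent.H53.VA

open Pool.Agent.Helper741 Pool.Agent.TH107 CoxeterSystem Pool.Agent.X201.AT
open Pool.Agent.Y110.FJ

variable {C : ∀ (G : Type) [Group G], Prop}

/-- the cosine form is positive semidefinite -/
def Psd {B : Type} [Fintype B] (M : CoxeterMatrix B) : Prop :=
  ∀ v : B → ℝ, 0 ≤ ∑ i, ∑ j, -Real.cos (Real.pi / (M i j : ℝ)) * (v i * v j)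

section

variable {B : Type} {M : CoxeterMatrix B} [Fintype B] [DecidableEq B]
variable {W : Type} [Group W] (cs : CoxeterSystem M W)


theorem bil_eq (v : B → ℝ) :
    bil M v v = 2 * ∑ i, ∑ j, -Real.cos (Real.pi / (M i j : ℝ)) * (v i * v j) := by
  unfold bil
  rw [Finset.mul_sum]
  apply Finset.sum_congr rfl
  intro i _
  rw [coroot_apply, Finset.mul_sum, Finset.mul_sum]
  apply Finset.sum_congr rfl
  intro j _
  unfold cc
  ring

theorem bil_sum {K : Type} [Fintype K] (x : K → ℝ) (r : K → (B → ℝ)) (v : B → ℝ) :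
    bil M (∑ k, x k • r k) v = ∑ k, x k * bil M (r k) v := by
  unfold bil
  have h1 : ∀ i, (∑ k, x k • r k) i = ∑ k, x k * r k i := fun i => by
    rw [Finset.sum_apply]
    rfl
  simp only [h1, Finset.sum_mul, Finset.mul_sum]
  rw [Finset.sum_comm]
  apply Finset.sum_congr rfl
  intro k _
  apply Finset.sum_congr rfl
  intro i _
  ring

theorem conf_psd {K : Type} [Fintype K] (N : CoxeterMatrix K) (r : K → (B → ℝ)) (h : Conf cs N r)
    (hM : Psd M) : Psd N := by
  intro x
  have h1 : bil M (∑ k, x k • r k) (∑ k, x k • r k) =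
      2 * ∑ i, ∑ j, -Real.cos (Real.pi / (N i j : ℝ)) * (x i * x j) := by
    rw [bil_sum, Finset.mul_sum]
    apply Finset.sum_congr rfl
    intro i _
    rw [bil_symm, bil_sum, Finset.mul_sum, Finset.mul_sum]
    apply Finset.sum_congr rfl
    intro j _
    obtain ⟨w, s, t, h2, -, h3, h4⟩ := h i j
    have h5 : bil M (r j) (r i) = -2 * Real.cos (Real.pi / (N i j : ℝ)) := by
      rw [bil_symm, h3, h4, bil_geo, bil_ee_left, coroot_ee, h2]
      rfl
    rw [h5]
    ring
  have h2 := hM (∑ k, x k • r k)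
  have h3 := bil_eq (M := M) (∑ k, x k • r k)
  rw [h1] at h3
  linarith

/-- **virtual Artin groups of spherical or affine type** -/
theorem va_psd (hC : ClosedE C) (hcox : ∀ (B : Type) [Finite B] (M : CoxeterMatrix B), C M.Group)
    (hA : ∀ (K : Type) [Fintype K] (N : CoxeterMatrix K), (∀ i j, N i j ≠ 0) → Psd N → C (Artin N))
    (hM : Psd M) : C (VirtualArtin M) := by
  rw [va_conf M.toCoxeterSystem hC hcox (hcox _ _)]
  intro K _ N r hr
  have : Fintype K := Fintype.ofFinite K
  refine hA K N (fun i j => ?_) (conf_psd M.toCoxeterSystem N r hr hM)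
  obtain ⟨w, s, t, -, h, -⟩ := hr i j
  exact h

/-- **right-angled virtual Artin groups** -/
theorem va_two (hC : ClosedE C) (hcox : ∀ (B : Type) [Finite B] (M : CoxeterMatrix B), C M.Group)
    (hM : ∀ i j, i ≠ j → M i j = 2 ∨ M i j = 0) : C (VirtualArtin M) := by
  rw [va_conf M.toCoxeterSystem hC hcox (hcox _ _)]
  intro K _ N r hr
  refine c_two hC _ K N rfl fun i j hij => ?_
  obtain ⟨w, s, t, h1, h2, -⟩ := hr i j
  have hst : s ≠ t := by
    rintro rfl
    exact N.off_diagonal i j hij (h1.trans (M.diagonal s))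
  rw [h1] at h2 ⊢
  exact (hM s t hst).resolve_right h2

/-- the Artin group is a subgroup of the virtual Artin group -/
theorem artin_of_va (hC : ClosedE C) (h : C (VirtualArtin M)) : C (Artin M) := by
  let cs := M.toCoxeterSystem
  have h1 : C (PP cs) :=
    hC.base.of_injective _ _ (vaEquiv cs).symm.toMonoidHom (vaEquiv cs).symm.injective h
  have h2 : C (Artin (hat cs)) :=
    hC.base.of_injective _ _ SemidirectProduct.inl SemidirectProduct.inl_injective h1
  exact c_sub hC (hat cs) M (mkR cs 1) (fun i j hij => mkR_inj cs hij) (fun i j => lb_mkR cs 1 i j) h2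

end

end Pool.Agent.H53.VA
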