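import Pool.Graph.R_pool_sql_team_seeded_64922ed1.X201.SH.Fin

/-!
Virtual Artin groups: the definition, and the groupoid of the simple roots.
-/

set_option autoImplicit false

namespace Pool.Agent.H53.VA

open Pool.Agent.Helper741 Pool.Agent.TH107 CoxeterSystem Pool.Agent.X201.AT

section bh

variable {B : Type} {M : CoxeterMatrix B} [Fintype B] [DecidableEq B]
variable {W : Type} [Group W] {cs : CoxeterSystem M W}

theorem exists_left_descent {w : W} (hw : w ≠ 1) :
    ∃ r : B, cs.length (cs.simple r * w) < cs.length w := by
  obtain ⟨i, hi⟩ := cs.exists_leftDescent_of_ne_one hw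
  exact ⟨i, hi⟩

/-- An element of the Coxeter group which maps a simple root to a simple root is a product of
elements of the same kind in parabolic subgroups of rank two. -/
theorem bh {G : Type*} [Group G] (τ : W →* G) (σ : B → G)
    (hmix : ∀ i j, i ≠ j → M i j ≠ 0 →
      alt (τ (cs.simple j)) (τ (cs.simple i)) (M i j - 1) * σ (if Even (M i j) then i else j) =
        σ i * alt (τ (cs.simple j)) (τ (cs.simple i)) (M i j - 1)) :
    ∀ (n : ℕ) (w : W) (s t : B), cs.length w = n → geo cs w (ee s) = ee t →
      τ w * σ s = σ t * τ w := by
  intro n
  induction n using Nat.strong_induction_on with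
  | _ n ih =>
    intro w s t hn hw
    by_cases h1 : w = 1
    · subst h1
      rw [map_one, Module.End.one_apply] at hw
      rw [ee_inj hw, map_one, one_mul, mul_one]
    obtain ⟨r, hr⟩ := exists_left_descent (cs := cs) h1
    have hcomm : cs.simple t * w = w * cs.simple s := simple_comm hw
    have hlt : cs.length w < cs.length (w * cs.simple s) := by
      rw [← geo_nonneg_iff, hw]
      exact ee_nonneg t
    have hl : cs.length (w * cs.simple s) = cs.length w + 1 := by
      rcases cs.length_mul_simple w s with h2 | h2 <;> omega
    have htr : t ≠ r := by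
      rintro rfl
      rw [hcomm] at hr
      omega
    have hd1 : cs.length (cs.simple t * (cs.simple t * w)) < cs.length (cs.simple t * w) := by
      rw [← mul_assoc, cs.simple_mul_simple_self, one_mul, hcomm]
      omega
    have hd2 : cs.length (cs.simple r * (cs.simple t * w)) < cs.length (cs.simple t * w) := by
      rw [hcomm, ← mul_assoc]
      rcases cs.length_mul_simple (cs.simple r * w) s with h2 | h2 <;> omega
    have h0 : M t r ≠ 0 := by
      intro h0
      obtain ⟨u, hu1, hu2⟩ := exists_aw_front cs (cs.simple t * w) (cs.length (cs.simple t * w) + 1)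
        t r htr (Or.inl h0) hd1 hd2
      have h2 : cs.length (cs.wordProd (aw t r (cs.length (cs.simple t * w) + 1) ++ u)) =
        (aw t r (cs.length (cs.simple t * w) + 1) ++ u).length := hu1
      rw [hu2, List.length_append, aw_length] at h2
      omega
    obtain ⟨m, hm⟩ : ∃ m, M t r = m + 1 := ⟨M t r - 1, by omega⟩
    have hm1 : 1 ≤ m := by
      have := two_le_of_ne M htr h0
      omega
    obtain ⟨u, hu1, hu2⟩ := exists_aw_front cs (cs.simple t * w) (m + 1) t r htr (Or.inr hm.ge) hd1 hd2
    have hlen : cs.length (cs.simple t * w) = m + 1 + u.length := by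
      have h2 : cs.length (cs.wordProd (aw t r (m + 1) ++ u)) = (aw t r (m + 1) ++ u).length := hu1
      rw [hu2, List.length_append, aw_length] at h2
      exact h2
    have hww : w = alt (cs.simple r) (cs.simple t) m * cs.wordProd u := by
      rw [aw_succ, List.cons_append, cs.wordProd_cons, cs.wordProd_append, wordProd_aw] at hu2
      exact (mul_left_cancel hu2).symm
    have hul : cs.length (cs.wordProd u) < n := by
      have h2 := cs.length_wordProd_le u
      rw [hcomm] at hlen
      omega
    have hrt : M r t = m + 1 := by rw [M.symmetric, hm]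
    have hrt0 : M r t ≠ 0 := by omega
    have hga : geo cs (alt (cs.simple r) (cs.simple t) m) (ee (if Even m then r else t)) = ee t := by
      have h2 := geo_alt (cs := cs) r t m
      rw [qs_pred M htr.symm hrt0 hrt] at h2
      have h3 := qs_top M htr.symm hrt0
      rw [hrt] at h3
      rw [h3, zero_smul, one_smul, zero_add] at h2
      exact h2
    have hus : geo cs (cs.wordProd u) (ee s) = ee (if Even m then r else t) := by
      apply geo_injective_apply cs (alt (cs.simple r) (cs.simple t) m)
      rw [geo_geo, ← hww, hw, hga]
    have h2 := ih _ hul (cs.wordProd u) s _ rfl hus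
    have h3 := hmix t r htr h0
    rw [hm, Nat.add_sub_cancel] at h3
    have h4 : (if Even (m + 1) then t else r) = if Even m then r else t := by
      by_cases hk : Even m
      · have hk' : ¬ Even (m + 1) := by simpa [Nat.even_add_one] using hk
        rw [if_pos hk, if_neg hk']
      · have hk' : Even (m + 1) := by simpa [Nat.even_add_one] using hk
        rw [if_neg hk, if_pos hk']
    rw [h4] at h3
    rw [hww, map_mul, map_alt, mul_assoc, h2, ← mul_assoc, h3, mul_assoc]

end bh

end Pool.Agent.H53.VA
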