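import Pool.Agent.H53.VA.Main

/-!
Artin groups of disjoint unions, and of unions of cycles.
-/

set_option autoImplicit false

namespace Pool.Agent.H53.VA

open Pool.Agent.Helper741 Pool.Agent.TH107 CoxeterSystem Pool.Agent.X201.AT
open Pool.Agent.Y110.FJ

variable {C : ∀ (G : Type) [Group G], Prop}

theorem c_sub (hC : ClosedE C) {B K : Type} [Finite K] (M : CoxeterMatrix B) (N : CoxeterMatrix K)
    (e : K → B) (he : Function.Injective e) (h : ∀ i j, M (e i) (e j) = N i j) (hM : C (Artin M)) :
    C (Artin N) := by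
  obtain rfl : subM M ⟨e, he⟩ = N := by
    apply CoxeterMatrix.ext
    ext i j
    exact h i j
  exact hC.base.of_injective _ _ (inc M ⟨e, he⟩) (inc_injective_fin M _) hM

section block

variable {K : Type} (N : CoxeterMatrix K) (X : Set K)

open Classical in
/-- the homomorphism which kills the generators outside `X` -/
noncomputable def kill (h : ∀ i ∈ X, ∀ j ∉ X, N i j = 2) : Artin N →* Artin (resM N X) :=
  Artin.lift (fun i => if hi : i ∈ X then Artin.gen (resM N X) ⟨i, hi⟩ else 1) fun i j => by
    by_cases hi : i ∈ X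
    · by_cases hj : j ∈ X
      · rw [dif_pos hi, dif_pos hj]
        exact Artin.rel (M := resM N X) ⟨i, hi⟩ ⟨j, hj⟩
      · rw [dif_pos hi, dif_neg hj, h i hi j hj, alt_two, alt_two, one_mul, mul_one]
    · by_cases hj : j ∈ X
      · rw [dif_neg hi, dif_pos hj, N.symmetric, h j hj i hi, alt_two, alt_two, one_mul, mul_one]
      · rw [dif_neg hi, dif_neg hj]

theorem kill_pos (h : ∀ i ∈ X, ∀ j ∉ X, N i j = 2) {i : K} (hi : i ∈ X) :
    kill N X h (Artin.gen N i) = Artin.gen (resM N X) ⟨i, hi⟩ := by
  unfold kill
  rw [Artin.lift_gen, dif_pos hi]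

theorem kill_neg (h : ∀ i ∈ X, ∀ j ∉ X, N i j = 2) {i : K} (hi : i ∉ X) :
    kill N X h (Artin.gen N i) = 1 := by
  unfold kill
  rw [Artin.lift_gen, dif_neg hi]

theorem comm_par (h : ∀ i ∈ X, ∀ j ∉ X, N i j = 2) (u : Artin (resM N X)) (v : Artin (resM N Xᶜ)) :
    Commute (inc N (Function.Embedding.subtype (· ∈ X)) u)
      (inc N (Function.Embedding.subtype (· ∈ Xᶜ)) v) := by
  induction u using Artin.induction with
  | one => rw [map_one]; exact Commute.one_left _
  | mul a b ha hb => rw [map_mul]; exact ha.mul_left hb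
  | inv a ha => rw [map_inv]; exact ha.inv_left
  | gen i =>
    induction v using Artin.induction with
    | one => rw [map_one]; exact Commute.one_right _
    | mul a b ha hb => rw [map_mul]; exact ha.mul_right hb
    | inv a ha => rw [map_inv]; exact ha.inv_right
    | gen j =>
      rw [inc_gen, inc_gen]
      have h1 := Artin.rel (M := N) i.1 j.1
      rw [h i.1 i.2 j.1 j.2, alt_two, alt_two] at h1
      exact h1

theorem c_block (hC : ClosedE C) (h : ∀ i ∈ X, ∀ j ∉ X, N i j = 2)
    (h1 : C (Artin (resM N X))) (h2 : C (Artin (resM N Xᶜ))) : C (Artin N) := by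
  have h' : ∀ i ∈ Xᶜ, ∀ j ∉ Xᶜ, N i j = 2 := fun i hi j hj => by
    rw [N.symmetric]
    exact h j (not_not.1 hj) i hi
  let f : Artin N →* Artin (resM N X) × Artin (resM N Xᶜ) := (kill N X h).prod (kill N Xᶜ h')
  let g : Artin (resM N X) × Artin (resM N Xᶜ) →* Artin N :=
    MonoidHom.noncommCoprod (inc N (Function.Embedding.subtype (· ∈ X)))
      (inc N (Function.Embedding.subtype (· ∈ Xᶜ))) (comm_par N X h)
  have hgf : g.comp f = MonoidHom.id _ := by
    apply Artin.hom_ext
    intro i
    show inc N _ (kill N X h (Artin.gen N i)) * inc N _ (kill N Xᶜ h' (Artin.gen N i)) = Artin.gen N i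
    by_cases hi : i ∈ X
    · rw [kill_pos N X h hi, kill_neg N Xᶜ h' (not_not.2 hi), map_one, mul_one, inc_gen]
      rfl
    · rw [kill_neg N X h hi, kill_pos N Xᶜ h' hi, map_one, one_mul, inc_gen]
      rfl
  refine hC.base.of_injective _ _ f ?_ (hC.base.prod _ _ h1 h2)
  intro u v huv
  have e1 := DFunLike.congr_fun hgf u
  have e2 := DFunLike.congr_fun hgf v
  rw [MonoidHom.comp_apply, huv] at e1
  exact e1.symm.trans e2

end block

theorem c_empty (hC : ClosedE C) {K : Type} [IsEmpty K] (N : CoxeterMatrix K) : C (Artin N) := by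
  have : Subsingleton (Artin N) := by
    constructor
    intro a b
    have h : ∀ x : Artin N, x = 1 := fun x => by
      induction x using Artin.induction with
      | one => rfl
      | gen i => exact isEmptyElim i
      | mul x y hx hy => rw [hx, hy, mul_one]
      | inv x hx => rw [hx, inv_one]
    rw [h a, h b]
  exact hC.base.of_injective _ _ (1 : Artin N →* Multiplicative ℤ)
    (fun a b _ => Subsingleton.elim a b) hC.base.int

theorem c_unique (hC : ClosedE C) {K : Type} [Unique K] (N : CoxeterMatrix K) : C (Artin N) := by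
  let f : Artin N →* Multiplicative ℤ := Artin.lift (fun _ => Multiplicative.ofAdd 1) fun i j => rfl
  let g : Multiplicative ℤ →* Artin N := zpowersHom _ (Artin.gen N default)
  have hgf : g.comp f = MonoidHom.id _ := by
    apply Artin.hom_ext
    intro i
    rw [MonoidHom.comp_apply]
    have h1 : f (Artin.gen N i) = Multiplicative.ofAdd 1 := Artin.lift_gen _ _ _
    rw [h1, Subsingleton.elim i default]
    show Artin.gen N default ^ (1 : ℤ) = _
    rw [zpow_one]
    rfl
  refine hC.base.of_injective _ _ f ?_ hC.base.int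
  intro u v huv
  have e1 := DFunLike.congr_fun hgf u
  have e2 := DFunLike.congr_fun hgf v
  rw [MonoidHom.comp_apply, huv] at e1
  exact e1.symm.trans e2

/-- right-angled, without infinite labels: free abelian groups -/
theorem c_two (hC : ClosedE C) : ∀ (n : ℕ) (K : Type) [Finite K] (N : CoxeterMatrix K),
    Nat.card K = n → (∀ i j, i ≠ j → N i j = 2) → C (Artin N) := by
  intro n
  induction n with
  | zero =>
    intro K _ N hn _
    have : IsEmpty K := (Finite.card_eq_zero_iff).1 hn
    exact c_empty hC N
  | succ n ih =>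
    intro K _ N hn h
    have : Nonempty K := (Nat.card_pos_iff.1 (by omega)).1
    obtain ⟨x⟩ := this
    refine c_block N {x} hC (fun i hi j hj => h i j ?_) ?_ ?_
    · rintro rfl
      exact hj hi
    · have : Unique ({x} : Set K) := Set.uniqueSingleton x
      exact c_unique hC _
    · refine ih _ _ ?_ fun i j hij => h i j fun h' => hij (Subtype.ext h')
      have h1 := Set.ncard_add_ncard_compl ({x} : Set K)
      rw [Set.ncard_singleton, hn] at h1
      have h2 : Nat.card ({x}ᶜ : Set K) = ({x}ᶜ : Set K).ncard := (Nat.card_coe_set_eq _)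
      omega

end Pool.Agent.H53.VA
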