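import Pool.Agent.H53.VA.Base

/-!
Virtual Artin groups are semidirect products of the Artin group on the root system with the Coxeter
group.
-/

set_option autoImplicit false

namespace Pool.Agent.H53.VA

open Pool.Agent.Helper741 Pool.Agent.TH107 CoxeterSystem Pool.Agent.X201.AT

section defs

variable {B : Type} (M : CoxeterMatrix B)

/-- the relators of the virtual Artin group; `Sum.inl i` is `σ i`, `Sum.inr i` is `τ i` -/
def relators : Set (FreeGroup (B ⊕ B)) :=
  {r | ∃ i j, r = alt (FreeGroup.of (Sum.inl i)) (FreeGroup.of (Sum.inl j)) (M i j) *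
      (alt (FreeGroup.of (Sum.inl j)) (FreeGroup.of (Sum.inl i)) (M i j))⁻¹} ∪
  {r | ∃ i j, r = (FreeGroup.of (Sum.inr i) * FreeGroup.of (Sum.inr j)) ^ M i j} ∪
  {r | ∃ i j, i ≠ j ∧ M i j ≠ 0 ∧
      r = alt (FreeGroup.of (Sum.inr j)) (FreeGroup.of (Sum.inr i)) (M i j - 1) *
          FreeGroup.of (Sum.inl (if Even (M i j) then i else j)) *
        (FreeGroup.of (Sum.inl i) *
          alt (FreeGroup.of (Sum.inr j)) (FreeGroup.of (Sum.inr i)) (M i j - 1))⁻¹}

/-- the virtual Artin group of a Coxeter matrix -/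
abbrev VirtualArtin : Type := PresentedGroup (relators M)

/-- the braid generators -/
def sig (i : B) : VirtualArtin M := PresentedGroup.of (Sum.inl i)

/-- the involutions -/
def tau (i : B) : VirtualArtin M := PresentedGroup.of (Sum.inr i)

variable {M}

theorem sig_braid (i j : B) : alt (sig M i) (sig M j) (M i j) = alt (sig M j) (sig M i) (M i j) := by
  have h : (PresentedGroup.mk (relators M)) (alt (FreeGroup.of (Sum.inl i)) (FreeGroup.of (Sum.inl j)) (M i j) *
      (alt (FreeGroup.of (Sum.inl j)) (FreeGroup.of (Sum.inl i)) (M i j))⁻¹) = 1 :=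
    PresentedGroup.one_of_mem (Or.inl (Or.inl ⟨i, j, rfl⟩))
  rw [map_mul, map_inv, mul_inv_eq_one, map_alt, map_alt] at h
  exact h

theorem tau_pow (i j : B) : (tau M i * tau M j) ^ M i j = 1 := by
  have h : (PresentedGroup.mk (relators M))
      ((FreeGroup.of (Sum.inr i) * FreeGroup.of (Sum.inr j)) ^ M i j) = 1 :=
    PresentedGroup.one_of_mem (Or.inl (Or.inr ⟨i, j, rfl⟩))
  rw [map_pow, map_mul] at h
  exact h

theorem tau_sig (i j : B) (hij : i ≠ j) (h0 : M i j ≠ 0) :
    alt (tau M j) (tau M i) (M i j - 1) * sig M (if Even (M i j) then i else j) =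
      sig M i * alt (tau M j) (tau M i) (M i j - 1) := by
  have h : (PresentedGroup.mk (relators M))
      (alt (FreeGroup.of (Sum.inr j)) (FreeGroup.of (Sum.inr i)) (M i j - 1) *
          FreeGroup.of (Sum.inl (if Even (M i j) then i else j)) *
        (FreeGroup.of (Sum.inl i) *
          alt (FreeGroup.of (Sum.inr j)) (FreeGroup.of (Sum.inr i)) (M i j - 1))⁻¹) = 1 :=
    PresentedGroup.one_of_mem (Or.inr ⟨i, j, hij, h0, rfl⟩)
  rw [map_mul, map_inv, mul_inv_eq_one, map_mul, map_mul, map_alt] at h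
  exact h

/-- the universal property -/
def vlift {G : Type*} [Group G] (σ τ : B → G)
    (h1 : ∀ i j, alt (σ i) (σ j) (M i j) = alt (σ j) (σ i) (M i j))
    (h2 : ∀ i j, (τ i * τ j) ^ M i j = 1)
    (h3 : ∀ i j, i ≠ j → M i j ≠ 0 →
      alt (τ j) (τ i) (M i j - 1) * σ (if Even (M i j) then i else j) =
        σ i * alt (τ j) (τ i) (M i j - 1)) : VirtualArtin M →* G :=
  PresentedGroup.toGroup (f := Sum.elim σ τ) (by
    rintro _ ((⟨i, j, rfl⟩ | ⟨i, j, rfl⟩) | ⟨i, j, hij, h0, rfl⟩)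
    · rw [map_mul, map_inv, map_alt, map_alt]
      simp only [FreeGroup.lift_apply_of, Sum.elim_inl]
      rw [h1, mul_inv_cancel]
    · rw [map_pow, map_mul]
      simp only [FreeGroup.lift_apply_of, Sum.elim_inr]
      rw [h2]
    · rw [map_mul, map_inv, map_mul, map_mul, map_alt]
      simp only [FreeGroup.lift_apply_of, Sum.elim_inr, Sum.elim_inl]
      rw [h3 i j hij h0, mul_inv_cancel])

section

variable {G : Type*} [Group G] (σ τ : B → G)
    (h1 : ∀ i j, alt (σ i) (σ j) (M i j) = alt (σ j) (σ i) (M i j))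
    (h2 : ∀ i j, (τ i * τ j) ^ M i j = 1)
    (h3 : ∀ i j, i ≠ j → M i j ≠ 0 →
      alt (τ j) (τ i) (M i j - 1) * σ (if Even (M i j) then i else j) =
        σ i * alt (τ j) (τ i) (M i j - 1))

theorem vlift_sig (i : B) : vlift σ τ h1 h2 h3 (sig M i) = σ i := by
  unfold vlift sig
  rw [PresentedGroup.toGroup.of]
  rfl

theorem vlift_tau (i : B) : vlift σ τ h1 h2 h3 (tau M i) = τ i := by
  unfold vlift tau
  rw [PresentedGroup.toGroup.of]
  rfl

end

theorem vhom_ext {G : Type*} [Group G] {f g : VirtualArtin M →* G}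
    (hs : ∀ i, f (sig M i) = g (sig M i)) (ht : ∀ i, f (tau M i) = g (tau M i)) : f = g := by
  apply PresentedGroup.ext
  rintro (i | i)
  · exact hs i
  · exact ht i

end defs

section roots

variable {B : Type} {M : CoxeterMatrix B} [Fintype B] [DecidableEq B]
variable {W : Type} [Group W] (cs : CoxeterSystem M W)

/-- the root system -/
def Rt : Type := {v : B → ℝ // IsRt cs v}

/-- a root -/
noncomputable def mkR (w : W) (s : B) : Rt cs := ⟨geo cs w (ee s), w, s, rfl⟩

theorem exists_mkR (x : Rt cs) : ∃ p : W × B, mkR cs p.1 p.2 = x := by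
  obtain ⟨v, w, s, rfl⟩ := x
  exact ⟨(w, s), rfl⟩

/-- the action of the Coxeter group on the roots -/
noncomputable def actR (w : W) : Equiv.Perm (Rt cs) where
  toFun := fun x => ⟨geo cs w x.1, x.2.geo w⟩
  invFun := fun x => ⟨geo cs w⁻¹ x.1, x.2.geo w⁻¹⟩
  left_inv := fun x => Subtype.ext (geo_inv_apply cs w x.1)
  right_inv := fun x => Subtype.ext (geo_apply_inv cs w x.1)

theorem actR_mkR (u w : W) (s : B) : actR cs u (mkR cs w s) = mkR cs (u * w) s :=
  Subtype.ext (geo_geo u w (ee s))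

theorem actR_mul (u w : W) (x : Rt cs) : actR cs (u * w) x = actR cs u (actR cs w x) :=
  Subtype.ext (geo_geo u w x.1).symm

theorem actR_one (x : Rt cs) : actR cs 1 x = x :=
  Subtype.ext (by show geo cs 1 x.1 = x.1; rw [map_one]; rfl)

theorem mkR_inj {w : W} {s t : B} (h : mkR cs w s = mkR cs w t) : s = t :=
  ee_inj (geo_injective_apply cs w (congrArg Subtype.val h))

open Classical in
/-- the label of a pair of roots -/
noncomputable def lb (x y : Rt cs) : ℕ :=
  if h : ∃ p : W × B × B, mkR cs p.1 p.2.1 = x ∧ mkR cs p.1 p.2.2 = y then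
    M h.choose.2.1 h.choose.2.2 else 0

theorem bil_mkR (w : W) (s t : B) : bil M (mkR cs w s).1 (mkR cs w t).1 = -2 * cc M s t := by
  show bil M (geo cs w (ee s)) (geo cs w (ee t)) = _
  rw [bil_geo, bil_ee_left, coroot_ee]

theorem lb_mkR (w : W) (s t : B) : lb cs (mkR cs w s) (mkR cs w t) = M s t := by
  have hex : ∃ p : W × B × B, mkR cs p.1 p.2.1 = mkR cs w s ∧ mkR cs p.1 p.2.2 = mkR cs w t :=
    ⟨(w, s, t), rfl, rfl⟩
  have h1 := hex.choose_spec
  unfold lb
  rw [dif_pos hex]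
  apply M_eq_of_cc
  have h2 := bil_mkR cs hex.choose.1 hex.choose.2.1 hex.choose.2.2
  rw [h1.1, h1.2, bil_mkR] at h2
  linarith

theorem lb_act (u : W) (x y : Rt cs) : lb cs (actR cs u x) (actR cs u y) = lb cs x y := by
  by_cases h : ∃ p : W × B × B, mkR cs p.1 p.2.1 = x ∧ mkR cs p.1 p.2.2 = y
  · obtain ⟨⟨w, s, t⟩, rfl, rfl⟩ := h
    rw [actR_mkR, actR_mkR, lb_mkR, lb_mkR]
  · have h' : ¬ ∃ p : W × B × B, mkR cs p.1 p.2.1 = actR cs u x ∧ mkR cs p.1 p.2.2 = actR cs u y := by
      rintro ⟨⟨w, s, t⟩, h1, h2⟩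
      refine h ⟨(u⁻¹ * w, s, t), ?_, ?_⟩
      · show mkR cs (u⁻¹ * w) s = x
        rw [← actR_mkR]
        show actR cs u⁻¹ (mkR cs w s) = x
        rw [show mkR cs w s = actR cs u x from h1, ← actR_mul, inv_mul_cancel, actR_one]
      · show mkR cs (u⁻¹ * w) t = y
        rw [← actR_mkR]
        show actR cs u⁻¹ (mkR cs w t) = y
        rw [show mkR cs w t = actR cs u y from h2, ← actR_mul, inv_mul_cancel, actR_one]
    unfold lb
    rw [dif_neg h, dif_neg h']

theorem lb_ne_zero {x y : Rt cs} (h : lb cs x y ≠ 0) :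
    ∃ (w : W) (s t : B), x = mkR cs w s ∧ y = mkR cs w t ∧ lb cs x y = M s t := by
  by_cases hex : ∃ p : W × B × B, mkR cs p.1 p.2.1 = x ∧ mkR cs p.1 p.2.2 = y
  · obtain ⟨⟨w, s, t⟩, rfl, rfl⟩ := hex
    exact ⟨w, s, t, rfl, rfl, lb_mkR cs w s t⟩
  · exact absurd (by unfold lb; rw [dif_neg hex]) h

/-- the Coxeter matrix on the roots -/
noncomputable def hat : CoxeterMatrix (Rt cs) where
  M := fun x y => lb cs x y
  isSymm := by
    ext x y
    show lb cs y x = lb cs x y
    by_cases h : ∃ p : W × B × B, mkR cs p.1 p.2.1 = x ∧ mkR cs p.1 p.2.2 = y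
    · obtain ⟨⟨w, s, t⟩, rfl, rfl⟩ := h
      rw [lb_mkR, lb_mkR, M.symmetric]
    · have h' : ¬ ∃ p : W × B × B, mkR cs p.1 p.2.1 = y ∧ mkR cs p.1 p.2.2 = x := by
        rintro ⟨⟨w, s, t⟩, h1, h2⟩
        exact h ⟨(w, t, s), h2, h1⟩
      unfold lb
      rw [dif_neg h, dif_neg h']
  diagonal := fun x => by
    obtain ⟨p, rfl⟩ := exists_mkR cs x
    show lb cs _ _ = 1
    rw [lb_mkR]
    exact M.diagonal _
  off_diagonal := fun x y hxy => by
    show lb cs x y ≠ 1
    by_cases h : ∃ p : W × B × B, mkR cs p.1 p.2.1 = x ∧ mkR cs p.1 p.2.2 = y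
    · obtain ⟨⟨w, s, t⟩, rfl, rfl⟩ := h
      rw [lb_mkR]
      apply M.off_diagonal
      intro hst
      exact hxy (by rw [show s = t from hst])
    · unfold lb
      rw [dif_neg h]
      exact zero_ne_one

theorem hat_apply (x y : Rt cs) : hat cs x y = lb cs x y := rfl

end roots

end Pool.Agent.H53.VA
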