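import Pool.Agent.H53.VA.Def

/-!
Virtual Artin groups are semidirect products of the Artin group on the root system with the Coxeter
group.
-/

set_option autoImplicit false

namespace Pool.Agent.H53.VA

open Pool.Agent.Helper741 Pool.Agent.TH107 CoxeterSystem Pool.Agent.X201.AT
open Pool.Agent.Y110.FJ

section perm

variable {K : Type} (N : CoxeterMatrix K)

/-- the endomorphism of the Artin group given by a permutation of the generators -/
def permHom (π : Equiv.Perm K) (hπ : ∀ i j, N (π i) (π j) = N i j) : Artin N →* Artin N :=
  Artin.lift (fun i => Artin.gen N (π i)) fun i j => by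
    have := Artin.rel (M := N) (π i) (π j)
    rwa [hπ] at this

theorem permHom_gen (π : Equiv.Perm K) (hπ : ∀ i j, N (π i) (π j) = N i j) (i : K) :
    permHom N π hπ (Artin.gen N i) = Artin.gen N (π i) := Artin.lift_gen _ _ _

variable {W : Type} [Group W] (a : W → Equiv.Perm K) (ha : ∀ w i j, N (a w i) (a w j) = N i j)
  (hmul : ∀ u w i, a (u * w) i = a u (a w i)) (hone : ∀ i, a 1 i = i)

include hmul in
theorem permHom_mul (u w : W) (x : Artin N) :
    permHom N (a (u * w)) (ha _) x = permHom N (a u) (ha u) (permHom N (a w) (ha w) x) := by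
  have h1 : permHom N (a (u * w)) (ha _) = (permHom N (a u) (ha u)).comp (permHom N (a w) (ha w)) := by
    apply Artin.hom_ext
    intro i
    rw [MonoidHom.comp_apply, permHom_gen, permHom_gen, permHom_gen, hmul]
  rw [h1]
  rfl

include hone in
theorem permHom_one (x : Artin N) : permHom N (a 1) (ha 1) x = x := by
  have h1 : permHom N (a 1) (ha 1) = MonoidHom.id _ := by
    apply Artin.hom_ext
    intro i
    rw [permHom_gen, hone]
    rfl
  rw [h1]
  rfl

/-- the action of a group on an Artin group by permutations of the generators -/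
def permAct : W →* MulAut (Artin N) where
  toFun := fun w =>
    { toFun := fun x => permHom N (a w) (ha w) x
      invFun := fun x => permHom N (a w⁻¹) (ha w⁻¹) x
      left_inv := fun x => by
        show permHom N (a w⁻¹) (ha w⁻¹) (permHom N (a w) (ha w) x) = x
        rw [← permHom_mul N a ha hmul]
        have h1 : ∀ v : W, v = 1 → permHom N (a v) (ha v) x = x := by
          rintro v rfl
          exact permHom_one N a ha hone x
        exact h1 _ (inv_mul_cancel w)
      right_inv := fun x => by
        show permHom N (a w) (ha w) (permHom N (a w⁻¹) (ha w⁻¹) x) = x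
        rw [← permHom_mul N a ha hmul]
        have h1 : ∀ v : W, v = 1 → permHom N (a v) (ha v) x = x := by
          rintro v rfl
          exact permHom_one N a ha hone x
        exact h1 _ (mul_inv_cancel w)
      map_mul' := fun x y => map_mul (permHom N (a w) (ha w)) x y }
  map_one' := MulEquiv.ext fun x => permHom_one N a ha hone x
  map_mul' := fun u w => MulEquiv.ext fun x => permHom_mul N a ha hmul u w x

theorem permAct_gen (w : W) (i : K) :
    permAct N a ha hmul hone w (Artin.gen N i) = Artin.gen N (a w i) := permHom_gen N (a w) (ha w) i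

end perm

section iso

variable {B : Type} {M : CoxeterMatrix B} [Fintype B] [DecidableEq B]
variable {W : Type} [Group W] (cs : CoxeterSystem M W)

/-- the action of the Coxeter group on the Artin group of the roots -/
noncomputable def act : W →* MulAut (Artin (hat cs)) :=
  permAct (hat cs) (actR cs) (fun w i j => lb_act cs w i j) (actR_mul cs) (actR_one cs)

theorem act_gen (w : W) (x : Rt cs) :
    act cs w (Artin.gen (hat cs) x) = Artin.gen (hat cs) (actR cs w x) := permAct_gen _ _ _ _ _ _ _

/-- the semidirect product -/
abbrev PP : Type := Artin (hat cs) ⋊[act cs] W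

theorem alt_root {i j : B} (hij : i ≠ j) (h0 : M i j ≠ 0) :
    geo cs (alt (cs.simple j) (cs.simple i) (M i j - 1)) (ee (if Even (M i j) then i else j)) = ee i := by
  obtain ⟨m, hm⟩ : ∃ m, M i j = m + 1 := ⟨M i j - 1, by omega⟩
  have hji : M j i = m + 1 := by rw [M.symmetric, hm]
  have h2 := geo_alt (cs := cs) j i m
  rw [qs_pred M hij.symm (by omega) hji] at h2
  have h3 := qs_top M hij.symm (by omega : M j i ≠ 0)
  rw [hji] at h3
  rw [h3, zero_smul, one_smul, zero_add] at h2
  have h4 : (if Even (m + 1) then i else j) = if Even m then j else i := by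
    by_cases hk : Even m
    · have hk' : ¬ Even (m + 1) := by simpa [Nat.even_add_one] using hk
      rw [if_pos hk, if_neg hk']
    · have hk' : Even (m + 1) := by simpa [Nat.even_add_one] using hk
      rw [if_neg hk, if_pos hk']
  rw [hm, Nat.add_sub_cancel, h4]
  exact h2

/-- the homomorphism to the semidirect product -/
noncomputable def fwd : VirtualArtin M →* PP cs :=
  vlift (fun i => SemidirectProduct.inl (Artin.gen (hat cs) (mkR cs 1 i)))
    (fun i => SemidirectProduct.inr (cs.simple i))
    (fun i j => by
      have h1 := Artin.rel (M := hat cs) (mkR cs 1 i) (mkR cs 1 j)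
      rw [hat_apply, lb_mkR] at h1
      have h2 := congrArg (SemidirectProduct.inl (φ := act cs)) h1
      rwa [map_alt, map_alt] at h2)
    (fun i j => by
      rw [← map_mul, ← map_pow, cs.simple_mul_simple_pow, map_one])
    (fun i j hij h0 => by
      rw [← map_alt (SemidirectProduct.inr (φ := act cs))]
      have h1 := SemidirectProduct.inl_aut (φ := act cs) (alt (cs.simple j) (cs.simple i) (M i j - 1))
        (Artin.gen (hat cs) (mkR cs 1 (if Even (M i j) then i else j)))
      rw [act_gen, actR_mkR, mul_one] at h1
      have h2 : mkR cs (alt (cs.simple j) (cs.simple i) (M i j - 1))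
          (if Even (M i j) then i else j) = mkR cs 1 i := by
        apply Subtype.ext
        show geo cs _ (ee _) = geo cs 1 (ee i)
        rw [map_one, Module.End.one_apply]
        exact alt_root cs hij h0
      rw [h2] at h1
      rw [h1, map_inv, inv_mul_cancel_right])

theorem fwd_sig (i : B) : fwd cs (sig M i) = SemidirectProduct.inl (Artin.gen (hat cs) (mkR cs 1 i)) :=
  vlift_sig _ _ _ _ _ i

theorem fwd_tau (i : B) : fwd cs (tau M i) = SemidirectProduct.inr (cs.simple i) :=
  vlift_tau _ _ _ _ _ i

theorem tau_liftable : M.IsLiftable (tau M) := tau_pow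

/-- the homomorphism of the Coxeter group to the virtual Artin group -/
noncomputable def tauW : W →* VirtualArtin M := cs.lift ⟨tau M, tau_liftable⟩

theorem tauW_simple (i : B) : tauW cs (cs.simple i) = tau M i := cs.lift_apply_simple tau_liftable i

theorem conj_sig {w w' : W} {s s' : B} (h : mkR cs w s = mkR cs w' s') :
    tauW cs w * sig M s * (tauW cs w)⁻¹ = tauW cs w' * sig M s' * (tauW cs w')⁻¹ := by
  have h1 : geo cs (w'⁻¹ * w) (ee s) = ee s' := by
    rw [← geo_geo]
    have h2 : geo cs w (ee s) = geo cs w' (ee s') := congrArg Subtype.val h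
    rw [h2, geo_inv_apply]
  have h3 := bh (cs := cs) (tauW cs) (sig M) (fun i j hij h0 => by
    rw [tauW_simple, tauW_simple]
    exact tau_sig i j hij h0) _ (w'⁻¹ * w) s s' rfl h1
  rw [map_mul, map_inv] at h3
  have h4 : tauW cs w * sig M s = tauW cs w' * sig M s' * ((tauW cs w')⁻¹ * tauW cs w) := by
    rw [mul_assoc, ← h3]
    group
  rw [h4]
  group

/-- the images of the generators of the Artin group of the roots -/
noncomputable def bgen (x : Rt cs) : VirtualArtin M :=
  tauW cs (exists_mkR cs x).choose.1 * sig M (exists_mkR cs x).choose.2 *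
    (tauW cs (exists_mkR cs x).choose.1)⁻¹

theorem bgen_mkR (w : W) (s : B) : bgen cs (mkR cs w s) = tauW cs w * sig M s * (tauW cs w)⁻¹ :=
  conj_sig cs (exists_mkR cs (mkR cs w s)).choose_spec

theorem alt_conj' {G : Type*} [Group G] (g a b : G) (n : ℕ) :
    alt (g * a * g⁻¹) (g * b * g⁻¹) n = g * alt a b n * g⁻¹ := by
  have := map_alt (MulAut.conj g).toMonoidHom a b n
  exact this.symm

/-- the homomorphism of the Artin group of the roots to the virtual Artin group -/
noncomputable def bArt : Artin (hat cs) →* VirtualArtin M :=
  Artin.lift (bgen cs) fun x y => by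
    rw [hat_apply]
    by_cases h0 : lb cs x y = 0
    · rw [h0, alt_zero, alt_zero]
    obtain ⟨w, s, t, rfl, rfl, h1⟩ := lb_ne_zero cs h0
    rw [h1, bgen_mkR, bgen_mkR, alt_conj', alt_conj', sig_braid]

theorem bArt_gen (x : Rt cs) : bArt cs (Artin.gen (hat cs) x) = bgen cs x := Artin.lift_gen _ _ _

theorem bgen_act (u : W) (x : Rt cs) :
    bgen cs (actR cs u x) = tauW cs u * bgen cs x * (tauW cs u)⁻¹ := by
  obtain ⟨⟨w, s⟩, rfl⟩ := exists_mkR cs x
  rw [actR_mkR, bgen_mkR, bgen_mkR, map_mul]
  group

/-- the homomorphism from the semidirect product -/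
noncomputable def bwd : PP cs →* VirtualArtin M :=
  SemidirectProduct.lift (bArt cs) (tauW cs) fun u => by
    apply Artin.hom_ext
    intro x
    show bArt cs (act cs u (Artin.gen (hat cs) x)) =
      tauW cs u * bArt cs (Artin.gen (hat cs) x) * (tauW cs u)⁻¹
    rw [act_gen, bArt_gen, bArt_gen, bgen_act]

/-- **Virtual Artin groups are semidirect products.** -/
noncomputable def vaEquiv : VirtualArtin M ≃* PP cs :=
  MonoidHom.toMulEquiv (fwd cs) (bwd cs)
    (by
      apply vhom_ext
      · intro i
        show bwd cs (fwd cs (sig M i)) = sig M i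
        unfold bwd
        rw [fwd_sig, SemidirectProduct.lift_inl, bArt_gen, bgen_mkR, map_one]
        group
      · intro i
        show bwd cs (fwd cs (tau M i)) = tau M i
        unfold bwd
        rw [fwd_tau, SemidirectProduct.lift_inr, tauW_simple])
    (by
      have hW : ∀ w : W, fwd cs (tauW cs w) = SemidirectProduct.inr w := by
        have h1 : (fwd cs).comp (tauW cs) = SemidirectProduct.inr := by
          apply cs.ext_simple
          intro i
          show fwd cs (tauW cs (cs.simple i)) = _
          rw [tauW_simple, fwd_tau]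
        exact fun w => DFunLike.congr_fun h1 w
      apply SemidirectProduct.hom_ext
      · apply Artin.hom_ext
        intro x
        obtain ⟨⟨w, s⟩, rfl⟩ := exists_mkR cs x
        show fwd cs (bwd cs (SemidirectProduct.inl (Artin.gen (hat cs) (mkR cs w s)))) =
          SemidirectProduct.inl (Artin.gen (hat cs) (mkR cs w s))
        unfold bwd
        rw [SemidirectProduct.lift_inl, bArt_gen, bgen_mkR, map_mul, map_mul, map_inv, hW, fwd_sig,
          ← map_inv, ← SemidirectProduct.inl_aut, act_gen, actR_mkR, mul_one]
      · apply MonoidHom.ext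
        intro w
        show fwd cs (bwd cs (SemidirectProduct.inr w)) = SemidirectProduct.inr w
        unfold bwd
        rw [SemidirectProduct.lift_inr, hW])

end iso

end Pool.Agent.H53.VA
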