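import Pool.Agent.H53.VA.Iso

/-!
Virtual Artin groups: reduction to the Artin groups of finite configurations of roots.
-/

set_option autoImplicit false

namespace Pool.Agent.H53.VA

open Pool.Agent.Helper741 Pool.Agent.TH107 CoxeterSystem Pool.Agent.X201.AT
open Pool.Agent.Y110.FJ

variable {C : ∀ (G : Type) [Group G], Prop}

/-- standard parabolic subgroups of finite rank in an Artin group of any rank -/
theorem inc_injective_fin {B : Type} (M : CoxeterMatrix B) {K : Type} [Finite K] (e : K ↪ B) :
    Function.Injective (inc M e) := by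
  let X : Set B := Set.range e
  let M' := subM M (Function.Embedding.subtype (· ∈ X))
  let F : K → Artin M' := fun i => Artin.gen M' ⟨e i, ⟨i, rfl⟩⟩
  let j : Artin (subM M e) →* Artin M' := Artin.lift F
    (fun a b => Artin.rel (M := M') ⟨e a, ⟨a, rfl⟩⟩ ⟨e b, ⟨b, rfl⟩⟩)
  let k : X → K := fun x => x.2.choose
  have hk : ∀ x : X, e (k x) = x := fun x => x.2.choose_spec
  let r : Artin M' →* Artin (subM M e) := Artin.lift (fun x => Artin.gen (subM M e) (k x))
    (fun x y => by
      have h1 : M' x y = subM M e (k x) (k y) := by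
        show M (x : B) (y : B) = M (e (k x)) (e (k y))
        rw [hk, hk]
      rw [h1]
      exact Artin.rel _ _)
  have hrj : r.comp j = MonoidHom.id _ := by
    apply Artin.hom_ext
    intro i
    have h1 : j (Artin.gen _ i) = F i := Artin.lift_gen _ _ i
    have h2 : r (F i) = Artin.gen (subM M e) (k ⟨e i, ⟨i, rfl⟩⟩) := Artin.lift_gen _ _ _
    have h3 : k ⟨e i, ⟨i, rfl⟩⟩ = i := e.injective (hk ⟨e i, ⟨i, rfl⟩⟩)
    rw [MonoidHom.comp_apply, h1, h2, h3]
    rfl
  have hij : (inc M (Function.Embedding.subtype (· ∈ X))).comp j = inc M e := by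
    apply Artin.hom_ext
    intro i
    have h1 : j (Artin.gen _ i) = F i := Artin.lift_gen _ _ i
    rw [MonoidHom.comp_apply, h1, inc_gen, inc_gen]
    rfl
  rw [← hij]
  intro u v huv
  have h1 : j u = j v := inc_inj_fin M (Set.finite_range e) huv
  have h2 := DFunLike.congr_fun hrj u
  have h3 := DFunLike.congr_fun hrj v
  rw [MonoidHom.comp_apply, h1] at h2
  exact h2.symm.trans h3

section

variable {B : Type} {M : CoxeterMatrix B} [Fintype B] [DecidableEq B]
variable {W : Type} [Group W] (cs : CoxeterSystem M W)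

theorem va_par (hC : ClosedE C) (hcox : ∀ (B : Type) [Finite B] (M : CoxeterMatrix B), C M.Group)
    (hW : C W) :
    C (VirtualArtin M) ↔ ∀ X : Set (Rt cs), X.Finite → (∀ i ∈ X, ∀ j ∈ X, hat cs i j ≠ 0) →
      C (par (hat cs) X) := by
  have h1 : C (VirtualArtin M) ↔ C (PP cs) :=
    ⟨fun h => hC.base.of_injective _ _ (vaEquiv cs).symm.toMonoidHom (vaEquiv cs).symm.injective h,
      fun h => hC.base.of_injective _ _ (vaEquiv cs).toMonoidHom (vaEquiv cs).injective h⟩
  rw [h1]
  let N : Subgroup (PP cs) := (SemidirectProduct.inl (φ := act cs)).range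
  have hN : N = (SemidirectProduct.rightHom (φ := act cs)).ker :=
    SemidirectProduct.range_inl_eq_ker_rightHom
  have hNn : N.Normal := by
    rw [hN]
    infer_instance
  let e : Artin (hat cs) ≃* N := MonoidHom.ofInjective SemidirectProduct.inl_injective
  refine X201.SH.artin_kern (hat cs) hC hcox N e ?_ ?_
  · intro γ
    refine ⟨actR cs γ.right, γ.left, fun i j => lb_act cs γ.right i j, fun i => ?_⟩
    show γ * SemidirectProduct.inl (Artin.gen (hat cs) i) * γ⁻¹ =
      SemidirectProduct.inl (γ.left * Artin.gen (hat cs) (actR cs γ.right i) * γ.left⁻¹)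
    rw [← act_gen, map_mul, map_mul, SemidirectProduct.inl_aut, map_inv]
    conv_lhs => rw [← SemidirectProduct.inl_left_mul_inr_right γ]
    rw [mul_inv_rev, map_inv]
    simp only [mul_assoc]
  · refine hC.base.of_injective _ _ (QuotientGroup.lift N SemidirectProduct.rightHom ?_) ?_ hW
    · intro x hx
      rw [hN] at hx
      exact hx
    · rw [injective_iff_map_eq_one]
      intro x hx
      obtain ⟨y, rfl⟩ := QuotientGroup.mk_surjective x
      rw [QuotientGroup.lift_mk] at hx
      rw [QuotientGroup.eq_one_iff, hN]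
      exact hx

/-- a family of roots with the pairwise relations of the Coxeter matrix `N` -/
def Conf {K : Type} (N : CoxeterMatrix K) (r : K → (B → ℝ)) : Prop :=
  ∀ i j, ∃ (w : W) (s t : B), N i j = M s t ∧ N i j ≠ 0 ∧ r i = geo cs w (ee s) ∧ r j = geo cs w (ee t)

theorem va_conf (hC : ClosedE C) (hcox : ∀ (B : Type) [Finite B] (M : CoxeterMatrix B), C M.Group)
    (hW : C W) :
    C (VirtualArtin M) ↔ ∀ (K : Type) [Finite K] (N : CoxeterMatrix K) (r : K → (B → ℝ)),
      Conf cs N r → C (Artin N) := by
  rw [va_par cs hC hcox hW]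
  constructor
  · intro h K _ N r hr
    have hrt : ∀ i, IsRt cs (r i) := fun i => by
      obtain ⟨w, s, t, -, -, h1, -⟩ := hr i i
      exact ⟨w, s, h1.symm⟩
    let f : K → Rt cs := fun i => ⟨r i, hrt i⟩
    have hlab : ∀ i j, hat cs (f i) (f j) = N i j := by
      intro i j
      obtain ⟨w, s, t, h1, -, h2, h3⟩ := hr i j
      have e1 : f i = mkR cs w s := Subtype.ext h2
      have e2 : f j = mkR cs w t := Subtype.ext h3
      rw [hat_apply, e1, e2, lb_mkR, h1]
    have hf : Function.Injective f := by
      intro i j hij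
      by_contra hne
      have h1 := hlab i j
      rw [hij] at h1
      exact N.off_diagonal i j hne (h1.symm.trans ((hat cs).diagonal _))
    let e : K ↪ Rt cs := ⟨f, hf⟩
    have hN : subM (hat cs) e = N := by
      apply CoxeterMatrix.ext
      ext i j
      exact hlab i j
    have hp := h (Set.range f) (Set.finite_range f) (by
      rintro _ ⟨i, rfl⟩ _ ⟨j, rfl⟩
      rw [hlab]
      obtain ⟨w, s, t, -, h1, -, -⟩ := hr i j
      exact h1)
    have hinj : Function.Injective (inc (hat cs) e) := inc_injective_fin (hat cs) e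
    have h2 : C (inc (hat cs) e).range := by
      rw [range_inc]
      exact hp
    have h3 : C (Artin (subM (hat cs) e)) := by
      let g := MonoidHom.ofInjective hinj
      exact hC.base.of_injective _ _ g.toMonoidHom g.injective h2
    rwa [hN] at h3
  · intro h X hX hcl
    have : Finite X := hX.to_subtype
    let N := resM (hat cs) X
    have h1 : C (Artin N) := by
      refine h X N (fun x => x.1.1) fun i j => ?_
      have h2 : lb cs i.1 j.1 ≠ 0 := hcl i.1 i.2 j.1 j.2
      obtain ⟨w, s, t, e1, e2, e3⟩ := lb_ne_zero cs h2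
      exact ⟨w, s, t, e3, h2, congrArg Subtype.val e1, congrArg Subtype.val e2⟩
    rw [← range_inc_set]
    let g := MonoidHom.ofInjective (inc_inj_fin (hat cs) hX)
    exact hC.base.of_injective _ _ g.symm.toMonoidHom g.symm.injective h1

end

end Pool.Agent.H53.VA
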