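import Pool.Agent.H53.VA.Cyc

/-!
Virtual braid groups: configurations of roots of type `A`.
-/

set_option autoImplicit false

namespace Pool.Agent.H53.VA

open Pool.Agent.Helper741 Pool.Agent.TH107 CoxeterSystem Pool.Agent.X201.AT
open Pool.Agent.Y110.FJ

variable {C : ∀ (G : Type) [Group G], Prop}

open Classical in
/-- the Coxeter matrix of a permutation -/
noncomputable def permM {K : Type} (π : Equiv.Perm K) : CoxeterMatrix K where
  M := fun i j => if i = j then 1 else if π i = j ∨ π j = i then 3 else 2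
  isSymm := by
    ext i j
    show (if j = i then 1 else if π j = i ∨ π i = j then 3 else 2) =
      (if i = j then 1 else if π i = j ∨ π j = i then 3 else 2)
    by_cases h : i = j
    · rw [if_pos h, if_pos h.symm]
    · rw [if_neg h, if_neg (Ne.symm h)]
      by_cases h1 : π i = j ∨ π j = i
      · rw [if_pos h1, if_pos h1.symm]
      · rw [if_neg h1, if_neg fun h2 => h1 h2.symm]
  diagonal := fun i => if_pos rfl
  off_diagonal := fun i j h => by
    show (if i = j then 1 else if π i = j ∨ π j = i then 3 else 2) ≠ 1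
    rw [if_neg h]
    split_ifs <;> norm_num

open Classical in
theorem permM_apply {K : Type} (π : Equiv.Perm K) (i j : K) :
    permM π i j = if i = j then 1 else if π i = j ∨ π j = i then 3 else 2 := rfl

open Classical in
theorem c_permM (hC : ClosedE C) (hcyc : ∀ n : ℕ, 3 ≤ n → C (Artin (cyc n)))
    {K : Type} [Finite K] (π : Equiv.Perm K) (h1 : ∀ i, π i ≠ i) (h2 : ∀ i, π (π i) ≠ i) :
    C (Artin (permM π)) := by
  refine c_perm hC hcyc _ K (permM π) π rfl h1 h2 fun i j => ?_
  rw [permM_apply]
  by_cases h : i = j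
  · exact Or.inl ⟨if_pos h, h⟩
  · rw [if_neg h]
    by_cases h3 : π i = j ∨ π j = i
    · exact Or.inr (Or.inl ⟨if_pos h3, h, h3⟩)
    · exact Or.inr (Or.inr ⟨if_neg h3, h, h3⟩)

/-- configurations of pairs -/
theorem c_pairs (hC : ClosedE C) (hcyc : ∀ n : ℕ, 3 ≤ n → C (Artin (cyc n)))
    {K V : Type} [Finite K] (N : CoxeterMatrix K) (a b : K → V)
    (ha : Function.Injective a) (hb : Function.Injective b) (hab : ∀ i, b i ≠ a i)
    (hne : ∀ i j, b i = a j → b j ≠ a i)
    (h3 : ∀ i j, i ≠ j → (b i = a j ∨ b j = a i) → N i j = 3)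
    (h2 : ∀ i j, i ≠ j → ¬ (b i = a j ∨ b j = a i) → N i j = 2) : C (Artin N) := by
  classical
  let D : Set K := {i | ∃ j, b i = a j}
  let R : Set K := {j | ∃ i, b i = a j}
  let nx : D → K := fun i => i.2.choose
  have hnx : ∀ i : D, b i = a (nx i) := fun i => i.2.choose_spec
  have hcard : Nat.card (Dᶜ : Set K) = Nat.card (Rᶜ : Set K) := by
    let nD : D → R := fun i => ⟨nx i, i, hnx i⟩
    have hbij : Function.Bijective nD := by
      constructor
      · intro i j hij
        have h4 : nx i = nx j := congrArg Subtype.val hij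
        apply Subtype.ext
        apply hb
        rw [hnx, hnx, h4]
      · rintro ⟨j, i, hij⟩
        refine ⟨⟨i, j, hij⟩, Subtype.ext (ha ?_)⟩
        show a (nx ⟨i, j, hij⟩) = a j
        rw [← hnx, ← hij]
    have h4 := Nat.card_congr (Equiv.ofBijective nD hbij)
    have h5 := Set.ncard_add_ncard_compl D
    have h6 := Set.ncard_add_ncard_compl R
    rw [← Nat.card_coe_set_eq, ← Nat.card_coe_set_eq] at h5 h6
    omega
  let φ : (Dᶜ : Set K) ≃ (Rᶜ : Set K) := (Finite.card_eq.1 hcard).some
  let f : K ⊕ ((Dᶜ : Set K) ⊕ (Dᶜ : Set K)) → K ⊕ ((Dᶜ : Set K) ⊕ (Dᶜ : Set K)) :=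
    Sum.elim (fun i => if h : i ∈ D then Sum.inl (nx ⟨i, h⟩) else Sum.inr (Sum.inl ⟨i, h⟩))
      (Sum.elim (fun i => Sum.inr (Sum.inr i)) (fun i => Sum.inl (φ i : K)))
  have f1 : ∀ i (h : i ∈ D), f (Sum.inl i) = Sum.inl (nx ⟨i, h⟩) := fun i h => dif_pos h
  have f2 : ∀ i (h : i ∉ D), f (Sum.inl i) = Sum.inr (Sum.inl ⟨i, h⟩) := fun i h => dif_neg h
  have f3 : ∀ i, f (Sum.inr (Sum.inl i)) = Sum.inr (Sum.inr i) := fun i => rfl
  have f4 : ∀ i, f (Sum.inr (Sum.inr i)) = Sum.inl (φ i : K) := fun i => rfl
  have hR : ∀ (i : (Dᶜ : Set K)) (j : D), (φ i : K) ≠ nx j := fun i j h =>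
    (φ i).2 (by rw [h]; exact ⟨j, hnx j⟩)
  have hf : Function.Injective f := by
    rintro (i | i | i) (j | j | j) hij
    · by_cases hi : i ∈ D
      · by_cases hj : j ∈ D
        · rw [f1 i hi, f1 j hj] at hij
          have h4 := Sum.inl_injective hij
          have h5 : b i = b j := by
            rw [show b i = a (nx ⟨i, hi⟩) from hnx ⟨i, hi⟩, h4]
            exact (hnx ⟨j, hj⟩).symm
          rw [hb h5]
        · rw [f1 i hi, f2 j hj] at hij
          exact absurd hij (by simp)
      · by_cases hj : j ∈ D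
        · rw [f2 i hi, f1 j hj] at hij
          exact absurd hij (by simp)
        · rw [f2 i hi, f2 j hj] at hij
          have h4 := Sum.inl_injective (Sum.inr_injective hij)
          rw [show i = j from congrArg Subtype.val h4]
    · rw [f3] at hij
      by_cases hi : i ∈ D
      · rw [f1 i hi] at hij
        exact absurd hij (by simp)
      · rw [f2 i hi] at hij
        exact absurd (Sum.inr_injective hij) (by simp)
    · rw [f4] at hij
      by_cases hi : i ∈ D
      · rw [f1 i hi] at hij
        exact absurd (Sum.inl_injective hij).symm (hR j ⟨i, hi⟩)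
      · rw [f2 i hi] at hij
        exact absurd hij (by simp)
    · rw [f3] at hij
      by_cases hj : j ∈ D
      · rw [f1 j hj] at hij
        exact absurd hij (by simp)
      · rw [f2 j hj] at hij
        exact absurd (Sum.inr_injective hij) (by simp)
    · rw [f3, f3] at hij
      rw [Sum.inr_injective (Sum.inr_injective hij)]
    · rw [f3, f4] at hij
      exact absurd hij (by simp)
    · rw [f4] at hij
      by_cases hj : j ∈ D
      · rw [f1 j hj] at hij
        exact absurd (Sum.inl_injective hij) (hR i ⟨j, hj⟩)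
      · rw [f2 j hj] at hij
        exact absurd hij (by simp)
    · rw [f3, f4] at hij
      exact absurd hij (by simp)
    · rw [f4, f4] at hij
      have h4 := φ.injective (Subtype.ext (Sum.inl_injective hij))
      rw [h4]
  let π : Equiv.Perm (K ⊕ ((Dᶜ : Set K) ⊕ (Dᶜ : Set K))) :=
    Equiv.ofBijective f (Finite.injective_iff_bijective.1 hf)
  have p1 : ∀ x, π x ≠ x := by
    rintro (i | i | i) h
    · change f (Sum.inl i) = _ at h
      by_cases hi : i ∈ D
      · rw [f1 i hi] at h
        have h4 : b i = a i := by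
          rw [show b i = a (nx ⟨i, hi⟩) from hnx ⟨i, hi⟩, Sum.inl_injective h]
        exact hab i h4
      · rw [f2 i hi] at h
        exact absurd h (by simp)
    · change f (Sum.inr (Sum.inl i)) = _ at h
      rw [f3] at h
      exact absurd (Sum.inr_injective h) (by simp)
    · change f (Sum.inr (Sum.inr i)) = _ at h
      rw [f4] at h
      exact absurd h (by simp)
  have p2 : ∀ x, π (π x) ≠ x := by
    rintro (i | i | i) h
    · change f (f (Sum.inl i)) = _ at h
      by_cases hi : i ∈ D
      · rw [f1 i hi] at h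
        by_cases hj : nx ⟨i, hi⟩ ∈ D
        · rw [f1 _ hj] at h
          refine hne i (nx ⟨i, hi⟩) (hnx ⟨i, hi⟩) ?_
          rw [show b (nx ⟨i, hi⟩) = a (nx ⟨nx ⟨i, hi⟩, hj⟩) from hnx ⟨nx ⟨i, hi⟩, hj⟩,
            Sum.inl_injective h]
        · rw [f2 _ hj] at h
          exact absurd h (by simp)
      · rw [f2 i hi, f3] at h
        exact absurd h (by simp)
    · change f (f (Sum.inr (Sum.inl i))) = _ at h
      rw [f3, f4] at h
      exact absurd h (by simp)
    · change f (f (Sum.inr (Sum.inr i))) = _ at h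
      rw [f4] at h
      by_cases hj : (φ i : K) ∈ D
      · rw [f1 _ hj] at h
        exact absurd h (by simp)
      · rw [f2 _ hj] at h
        exact absurd (Sum.inr_injective h) (by simp)
  have hπ : ∀ i j : K, π (Sum.inl i) = Sum.inl j ↔ b i = a j := by
    intro i j
    show f (Sum.inl i) = Sum.inl j ↔ _
    constructor
    · intro h
      by_cases hi : i ∈ D
      · rw [f1 i hi] at h
        rw [show b i = a (nx ⟨i, hi⟩) from hnx ⟨i, hi⟩, Sum.inl_injective h]
      · rw [f2 i hi] at h
        exact absurd h (by simp)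
    · intro h
      have hi : i ∈ D := ⟨j, h⟩
      rw [f1 i hi]
      congr 1
      apply ha
      rw [← h]
      exact (hnx ⟨i, hi⟩).symm
  refine c_sub hC (permM π) N Sum.inl Sum.inl_injective (fun i j => ?_) (c_permM hC hcyc π p1 p2)
  show permM π (Sum.inl i) (Sum.inl j) = N i j
  rw [permM_apply, hπ, hπ]
  by_cases hij : i = j
  · subst hij
    rw [if_pos rfl]
    exact (N.diagonal i).symm
  · rw [if_neg fun h => hij (Sum.inl_injective h)]
    by_cases h4 : b i = a j ∨ b j = a i
    · rw [if_pos h4, h3 i j hij h4]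
    · rw [if_neg h4, h2 i j hij h4]

end Pool.Agent.H53.VA
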