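import Pool.Agent.H53.VA.Pairs

/-!
Virtual braid groups.
-/

set_option autoImplicit false

namespace Pool.Agent.H53.VA

open Pool.Agent.Helper741 Pool.Agent.TH107 CoxeterSystem Pool.Agent.X201.AT
open Pool.Agent.Y110.FJ

variable {C : ∀ (G : Type) [Group G], Prop}

section typeA

variable (n : ℕ)

theorem A_apply (i j : Fin n) : CoxeterMatrix.A n i j =
    if i = j then 1 else (if (j : ℕ) + 1 = i ∨ (i : ℕ) + 1 = j then 3 else 2) := rfl

/-- the simple root `e i - e (i+1)` -/
noncomputable def al (j : Fin n) : Fin (n + 1) → ℝ :=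
  Pi.single j.castSucc 1 - Pi.single j.succ 1

/-- the linear map to the standard model of the root system -/
noncomputable def LL (v : Fin n → ℝ) : Fin (n + 1) → ℝ := ∑ j, v j • al n j

theorem cc_A (i j : Fin n) : -2 * cc (CoxeterMatrix.A n) i j = al n j i.castSucc - al n j i.succ := by
  unfold cc al
  rw [A_apply]
  by_cases h : i = j
  · subst h
    rw [if_pos rfl]
    have h1 : i.castSucc ≠ i.succ := Fin.castSucc_lt_succ.ne
    simp [h1, h1.symm]
    norm_num
  · rw [if_neg h]
    have h1 : i.castSucc ≠ j.castSucc := fun h' => h (Fin.castSucc_injective n h')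
    have h2 : i.succ ≠ j.succ := fun h' => h (Fin.succ_injective n h')
    by_cases h3 : (j : ℕ) + 1 = i
    · rw [if_pos (Or.inl h3)]
      have h4 : i.castSucc = j.succ := Fin.ext (by simp [← h3])
      have h5 : i.succ ≠ j.castSucc := fun h' => by
        have := congrArg Fin.val h'
        simp at this
        omega
      simp only [Pi.sub_apply, Pi.single_apply]
      rw [if_neg h1, if_pos h4, if_neg h5, if_neg h2]
      have h6 : Real.cos (Real.pi / ((3 : ℕ) : ℝ)) = 1 / 2 := by
        push_cast
        exact Real.cos_pi_div_three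
      rw [h6]
      norm_num
    · by_cases h3' : (i : ℕ) + 1 = j
      · rw [if_pos (Or.inr h3')]
        have h4 : i.succ = j.castSucc := Fin.ext (by simp [← h3'])
        have h5 : i.castSucc ≠ j.succ := fun h' => by
          have := congrArg Fin.val h'
          simp at this
          omega
        simp only [Pi.sub_apply, Pi.single_apply]
        rw [if_neg h1, if_neg h5, if_pos h4, if_neg h2]
        have h6 : Real.cos (Real.pi / ((3 : ℕ) : ℝ)) = 1 / 2 := by
          push_cast
          exact Real.cos_pi_div_three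
        rw [h6]
        norm_num
      · rw [if_neg (by rintro (h' | h') <;> contradiction)]
        have h4 : i.castSucc ≠ j.succ := fun h' => by
          have := congrArg Fin.val h'
          simp at this
          omega
        have h5 : i.succ ≠ j.castSucc := fun h' => by
          have := congrArg Fin.val h'
          simp at this
          omega
        simp only [Pi.sub_apply, Pi.single_apply]
        rw [if_neg h1, if_neg h4, if_neg h5, if_neg h2]
        have h6 : Real.cos (Real.pi / ((2 : ℕ) : ℝ)) = 0 := by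
          push_cast
          exact Real.cos_pi_div_two
        rw [h6]
        norm_num

theorem coroot_A (i : Fin n) (v : Fin n → ℝ) :
    coroot (CoxeterMatrix.A n) i v = LL n v i.castSucc - LL n v i.succ := by
  rw [coroot_apply]
  unfold LL
  rw [Finset.sum_apply, Finset.sum_apply, ← Finset.sum_sub_distrib]
  apply Finset.sum_congr rfl
  intro j _
  rw [cc_A]
  simp only [Pi.smul_apply, smul_eq_mul]
  ring

theorem LL_add (v w : Fin n → ℝ) : LL n (v + w) = LL n v + LL n w := by
  unfold LL
  rw [← Finset.sum_add_distrib]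
  apply Finset.sum_congr rfl
  intro j _
  rw [Pi.add_apply, add_smul]

theorem LL_smul (c : ℝ) (v : Fin n → ℝ) : LL n (c • v) = c • LL n v := by
  unfold LL
  rw [Finset.smul_sum]
  apply Finset.sum_congr rfl
  intro j _
  rw [Pi.smul_apply, smul_assoc]

theorem LL_ee (i : Fin n) : LL n (ee i) = al n i := by
  unfold LL
  rw [Finset.sum_eq_single i]
  · simp [ee]
  · intro j _ hj
    simp [ee, hj]
  · intro h
    exact absurd (Finset.mem_univ _) h

theorem bil_A (v w : Fin n → ℝ) :
    bil (CoxeterMatrix.A n) v w = ∑ k, LL n v k * LL n w k := by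
  unfold bil
  have h1 : ∀ k, LL n v k * LL n w k = ∑ j, v j * (al n j k * LL n w k) := by
    intro k
    have h2 : LL n v k = ∑ j, v j * al n j k := by
      unfold LL
      rw [Finset.sum_apply]
      rfl
    rw [h2, Finset.sum_mul]
    apply Finset.sum_congr rfl
    intro j _
    ring
  simp only [h1]
  rw [Finset.sum_comm]
  apply Finset.sum_congr rfl
  intro j _
  rw [coroot_A, ← Finset.mul_sum]
  congr 1
  unfold al
  simp [sub_mul, Finset.sum_sub_distrib, Pi.single_apply]

/-- the vector `e a - e b` -/
noncomputable def pr (a b : Fin (n + 1)) : Fin (n + 1) → ℝ := Pi.single a 1 - Pi.single b 1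

theorem sg_A (i : Fin n) (v : Fin n → ℝ) (k : Fin (n + 1)) :
    LL n (sg (CoxeterMatrix.A n) i v) k = LL n v (Equiv.swap i.castSucc i.succ k) := by
  have h0 : sg (CoxeterMatrix.A n) i v = v + (-(coroot (CoxeterMatrix.A n) i v)) • ee i := by
    rw [sg_apply]
    module
  rw [h0, LL_add, LL_smul, LL_ee, coroot_A]
  simp only [Pi.add_apply, Pi.smul_apply, smul_eq_mul, al, Pi.sub_apply, Pi.single_apply]
  have h1 : i.castSucc ≠ i.succ := Fin.castSucc_lt_succ.ne
  by_cases hk : k = i.castSucc
  · subst hk
    rw [Equiv.swap_apply_left, if_pos rfl, if_neg h1]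
    ring
  · by_cases hk' : k = i.succ
    · subst hk'
      rw [Equiv.swap_apply_right, if_neg h1.symm, if_pos rfl]
      ring
    · rw [Equiv.swap_apply_of_ne_of_ne hk hk', if_neg hk, if_neg hk']
      ring

variable {n}

theorem root_pr {W : Type} [Group W] (cs : CoxeterSystem (CoxeterMatrix.A n) W) (w : W) (s : Fin n) :
    ∃ a b : Fin (n + 1), a ≠ b ∧ LL n (geo cs w (ee s)) = pr n a b := by
  induction w using cs.simple_induction_left with
  | one =>
    refine ⟨s.castSucc, s.succ, Fin.castSucc_lt_succ.ne, ?_⟩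
    rw [map_one, Module.End.one_apply, LL_ee]
    rfl
  | mul_simple_left w i ih =>
    obtain ⟨a, b, hab, h⟩ := ih
    refine ⟨Equiv.swap i.castSucc i.succ a, Equiv.swap i.castSucc i.succ b,
      fun h' => hab ((Equiv.swap i.castSucc i.succ).injective h'), ?_⟩
    funext k
    rw [← geo_geo, geo_simple, sg_A, h]
    unfold pr
    simp only [Pi.sub_apply, Pi.single_apply]
    congr 1
    · by_cases h1 : k = Equiv.swap i.castSucc i.succ a
      · rw [if_pos h1, if_pos (by rw [h1, Equiv.swap_apply_self])]
      · rw [if_neg h1, if_neg fun h2 => h1 (by rw [← h2, Equiv.swap_apply_self])]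
    · by_cases h1 : k = Equiv.swap i.castSucc i.succ b
      · rw [if_pos h1, if_pos (by rw [h1, Equiv.swap_apply_self])]
      · rw [if_neg h1, if_neg fun h2 => h1 (by rw [← h2, Equiv.swap_apply_self])]

theorem pr_pr (a b c d : Fin (n + 1)) : ∑ k, pr n a b k * pr n c d k =
    (if a = c then 1 else 0) - (if a = d then 1 else 0) - (if b = c then 1 else 0) +
      (if b = d then 1 else 0) := by
  unfold pr
  simp only [Pi.sub_apply, Pi.single_apply, sub_mul, mul_sub, Finset.sum_sub_distrib, ite_mul,
    one_mul, zero_mul, Finset.sum_ite_eq', Finset.mem_univ, if_true]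
  ring

/-- **virtual braid groups** -/
theorem va_A (hC : ClosedE C) (hcox : ∀ (B : Type) [Finite B] (M : CoxeterMatrix B), C M.Group)
    (hcyc : ∀ n : ℕ, 3 ≤ n → C (Artin (cyc n))) (n : ℕ) :
    C (VirtualArtin (CoxeterMatrix.A n)) := by
  let cs := (CoxeterMatrix.A n).toCoxeterSystem
  rw [va_conf cs hC hcox (hcox _ _)]
  intro K _ N r hr
  have hroot : ∀ i, ∃ a b : Fin (n + 1), a ≠ b ∧ LL n (r i) = pr n a b := by
    intro i
    obtain ⟨w, s, t, -, -, h1, -⟩ := hr i i
    rw [h1]
    exact root_pr cs w s
  choose a b hab hL using hroot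
  have hval : ∀ i j, i ≠ j → (N i j = 2 ∧ ∑ k, pr n (a i) (b i) k * pr n (a j) (b j) k = 0) ∨
      (N i j = 3 ∧ ∑ k, pr n (a i) (b i) k * pr n (a j) (b j) k = -1) := by
    intro i j hij
    obtain ⟨w, s, t, h1, h2, h3, h4⟩ := hr i j
    have hst : s ≠ t := by
      rintro rfl
      have h5 := N.off_diagonal i j hij
      rw [h1] at h5
      exact h5 ((CoxeterMatrix.A n).diagonal s)
    have h5 : bil (CoxeterMatrix.A n) (r i) (r j) = -2 * cc (CoxeterMatrix.A n) s t := by
      rw [h3, h4, bil_geo, bil_ee_left, coroot_ee]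
    rw [bil_A, hL, hL] at h5
    rw [h5, h1]
    unfold cc
    rw [A_apply, if_neg hst]
    by_cases h6 : (t : ℕ) + 1 = s ∨ (s : ℕ) + 1 = t
    · right
      rw [if_pos h6]
      refine ⟨rfl, ?_⟩
      have h6 : Real.cos (Real.pi / ((3 : ℕ) : ℝ)) = 1 / 2 := by
        push_cast
        exact Real.cos_pi_div_three
      rw [h6]
      norm_num
    · left
      rw [if_neg h6]
      refine ⟨rfl, ?_⟩
      have h6 : Real.cos (Real.pi / ((2 : ℕ) : ℝ)) = 0 := by
        push_cast
        exact Real.cos_pi_div_two
      rw [h6]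
      norm_num
  have hac : ∀ i j, i ≠ j → a i ≠ a j := by
    intro i j hij h
    have h1 : a i ≠ b j := by rw [h]; exact hab j
    have h2 : b i ≠ a j := by rw [← h]; exact (hab i).symm
    have h3 := pr_pr (a i) (b i) (a j) (b j)
    rw [if_pos h, if_neg h1, if_neg h2] at h3
    rcases hval i j hij with ⟨-, h4⟩ | ⟨-, h4⟩ <;> rw [h4] at h3 <;> split_ifs at h3 <;> norm_num at h3
  have hbd : ∀ i j, i ≠ j → b i ≠ b j := by
    intro i j hij h
    have h1 : a i ≠ b j := by rw [← h]; exact hab i
    have h2 : b i ≠ a j := by rw [h]; exact (hab j).symm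
    have h3 := pr_pr (a i) (b i) (a j) (b j)
    rw [if_pos h, if_neg h1, if_neg h2] at h3
    rcases hval i j hij with ⟨-, h4⟩ | ⟨-, h4⟩ <;> rw [h4] at h3 <;> split_ifs at h3 <;> norm_num at h3
  refine c_pairs hC hcyc N a b (fun i j h => by_contra fun h' => hac i j h' h)
    (fun i j h => by_contra fun h' => hbd i j h' h) (fun i => (hab i).symm) ?_ ?_ ?_
  · intro i j h1 h2
    have hij : i ≠ j := by
      rintro rfl
      exact hab i h1.symm
    have h3 := pr_pr (a i) (b i) (a j) (b j)
    rw [if_neg (hac i j hij), if_pos h2.symm, if_pos h1, if_neg (hbd i j hij)] at h3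
    rcases hval i j hij with ⟨-, h4⟩ | ⟨-, h4⟩ <;> rw [h4] at h3 <;> norm_num at h3
  · intro i j hij h1
    rcases hval i j hij with ⟨-, h4⟩ | ⟨h5, -⟩
    · exfalso
      have h3 := pr_pr (a i) (b i) (a j) (b j)
      rw [h4, if_neg (hac i j hij), if_neg (hbd i j hij)] at h3
      rcases h1 with h1 | h1
      · rw [if_pos h1] at h3
        split_ifs at h3 <;> norm_num at h3
      · rw [if_pos h1.symm] at h3
        split_ifs at h3 <;> norm_num at h3
    · exact h5
  · intro i j hij h1
    rcases hval i j hij with ⟨h5, -⟩ | ⟨-, h4⟩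
    · exact h5
    · exfalso
      have h3 := pr_pr (a i) (b i) (a j) (b j)
      rw [h4, if_neg (hac i j hij), if_neg (hbd i j hij), if_neg fun h => h1 (Or.inr h.symm),
        if_neg fun h => h1 (Or.inl h)] at h3
      norm_num at h3

end typeA

end Pool.Agent.H53.VA
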